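import Pool.Agent.H6.N4D.TB

/-!
# REL: the relations are impossible (assembly)
-/

set_option autoImplicit false

open Finset Pool.Agent.H6.N4D

namespace Pool.Agent.H62.N4D

/-- the choice of `K` and of the constants -/
lemma rel_choose (C Cw c₂ : ℝ) (B K₀ : ℕ) (hC : 1 ≤ C) (hCw : 1 ≤ Cw) (hc : 0 < c₂) :
    ∃ K : ℕ, K₀ ≤ K ∧ B ≤ K ∧ 10 ≤ K ∧ ∃ e1 k1 e eo e2 k3 r : ℝ,
      0 < e1 ∧ e1 ≤ 1 ∧ e = e1 / 4 ∧ e ≤ 1 / 100 ∧
      k1 = C * (K * e1 + 1 / (K : ℝ) ^ 2) ∧ 0 ≤ k1 ∧ k1 ≤ 1 / 100 ∧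
      eo = 10 * (1 + Cw * (1 + Real.log K)) * (k1 + e) ∧ 0 < eo ∧
      e2 = 4 * eo ∧ e2 ≤ 1 ∧ k3 = C * (K * e2 + 1 / (K : ℝ) ^ 2) ∧ 0 ≤ k3 ∧ k3 ≤ 1 / 16 ∧
      0 < r ∧ k3 + r + eo + eo ≤ c₂ ∧ B * (k3 + r + eo) + eo ≤ c₂ := by
  set A : ℝ := 40 * Cw * (2 * C + 1) with hA
  have hA0 : 1 ≤ A := by rw [hA]; nlinarith
  set W : ℝ := C * (4 * A + 1) + 2 * A + 2 * C + 2 with hW
  have hW0 : 1 ≤ W := by
    have : 0 ≤ C * (4 * A + 1) := by positivity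
    rw [hW]; linarith
  set T : ℝ := ((B : ℝ) + 1) * W * (100 + 1 / c₂) with hT
  have hT0 : 0 < T := by positivity
  obtain ⟨K1, hK1⟩ := exists_nat_ge (T ^ 2)
  refine ⟨max (max K₀ B) (max 10 K1), by simp, by simp, by simp, ?_⟩
  set K := max (max K₀ B) (max 10 K1) with hK
  have hK10 : 10 ≤ K := by rw [hK]; simp
  have hK1' : K1 ≤ K := by rw [hK]; simp
  have hKr : (10 : ℝ) ≤ K := by exact_mod_cast hK10
  have hKpos : (0 : ℝ) < K := by linarith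
  have hTK : T ^ 2 ≤ K := hK1.trans (by exact_mod_cast hK1')
  set s := Real.sqrt K with hs
  have hs2 : s ^ 2 = K := Real.sq_sqrt hKpos.le
  have hs0 : 0 < s := Real.sqrt_pos.2 hKpos
  have hTs : T ≤ s := by
    rw [hs]; exact Real.le_sqrt_of_sq_le hTK
  have hs1 : 1 ≤ s := by nlinarith
  have hlog : Real.log K ≤ 2 * s := by
    rw [← hs2, Real.log_pow]
    push_cast
    have := Real.log_le_sub_one_of_pos hs0
    linarith
  have hlog0 : 0 ≤ Real.log K := Real.log_nonneg (by linarith)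
  set r : ℝ := 1 / s with hr
  have hr0 : 0 < r := by positivity
  have hr1 : r ≤ 1 := by rw [hr, div_le_one hs0]; exact hs1
  have hrs : r * s = 1 := by rw [hr]; field_simp
  have hKr2 : (K : ℝ) * r ^ 2 = 1 := by rw [← hs2, hr]; field_simp
  -- the powers
  have hK2 : 1 / (K : ℝ) ^ 2 = r ^ 4 := by
    rw [← hs2, hr]; field_simp
  have hK3 : 1 / (K : ℝ) ^ 3 = r ^ 6 := by
    rw [← hs2, hr]; field_simp
  have hr2 : r ^ 2 ≤ 1 := by nlinarith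
  have hr4 : r ^ 4 ≤ r := by
    calc r ^ 4 = r * (r * r ^ 2) := by ring
      _ ≤ r * (1 * 1) := by
        apply mul_le_mul_of_nonneg_left _ hr0.le
        exact mul_le_mul hr1 hr2 (by positivity) (by norm_num)
      _ = r := by ring
  have hr64 : r ^ 6 ≤ r ^ 4 := by
    calc r ^ 6 = r ^ 4 * r ^ 2 := by ring
      _ ≤ r ^ 4 * 1 := mul_le_mul_of_nonneg_left hr2 (by positivity)
      _ = r ^ 4 := by ring
  have hr6 : r ^ 6 ≤ 1 / 1000 := by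
    rw [← hK3, div_le_div_iff₀ (by positivity) (by norm_num)]
    have : (10 : ℝ) ^ 3 ≤ (K : ℝ) ^ 3 := pow_le_pow_left₀ (by norm_num) hKr 3
    linarith
  -- the constants
  have hWr : ((B : ℝ) + 1) * (W * r) ≤ 1 / (100 + 1 / c₂) := by
    rw [le_div_iff₀ (by positivity)]
    have h1 : ((B : ℝ) + 1) * (W * r) * (100 + 1 / c₂) = T * r := by rw [hT]; ring
    rw [h1, hr, mul_one_div, div_le_one hs0]
    exact hTs
  have hm1 : 1 / (100 + 1 / c₂) ≤ 1 / 100 := by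
    apply one_div_le_one_div_of_le (by norm_num)
    have : 0 < 1 / c₂ := by positivity
    linarith
  have hm2 : 1 / (100 + 1 / c₂) ≤ c₂ := by
    rw [div_le_iff₀ (by positivity)]
    have : c₂ * (100 + 1 / c₂) = 100 * c₂ + 1 := by field_simp
    rw [this]; linarith
  have hB0 : (0 : ℝ) ≤ B := Nat.cast_nonneg _
  have hWr0 : 0 ≤ W * r := by positivity
  have hWr3 : W * r ≤ ((B : ℝ) + 1) * (W * r) :=
    le_mul_of_one_le_left hWr0 (by linarith)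
  have hWr1 : W * r ≤ 1 / 100 := hWr3.trans (hWr.trans hm1)
  have hWr2 : W * r ≤ c₂ := hWr3.trans (hWr.trans hm2)
  have hCr : 2 * C * r ≤ W * r := by
    apply mul_le_mul_of_nonneg_right _ hr0.le
    have : 0 ≤ C * (4 * A + 1) := by positivity
    rw [hW]; linarith
  have hk1 : C * (K * r ^ 6 + r ^ 4) = 2 * C * r ^ 4 := by
    have : (K : ℝ) * r ^ 6 = r ^ 4 * ((K : ℝ) * r ^ 2) := by ring
    rw [this, hKr2]; ring
  set k1 : ℝ := 2 * C * r ^ 4 with hk1d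
  have hk10 : 0 ≤ k1 := by positivity
  set e : ℝ := r ^ 6 / 4 with he
  have he0 : 0 < e := by positivity
  have hke : k1 + e ≤ (2 * C + 1) * r ^ 4 := by
    rw [hk1d, he]
    have h9 : (2 * C + 1) * r ^ 4 = 2 * C * r ^ 4 + r ^ 4 := by ring
    have : (0 : ℝ) < r ^ 6 := by positivity
    rw [h9]; linarith
  set eo : ℝ := 10 * (1 + Cw * (1 + Real.log K)) * (k1 + e) with heo
  have heo0 : 0 < eo := by
    have : 0 < k1 + e := by linarith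
    have h2 : 0 < 1 + Cw * (1 + Real.log K) := by positivity
    positivity
  have hcw : 1 + Cw * (1 + Real.log K) ≤ 4 * Cw * s := by
    have h1 : Cw * (1 + Real.log K) ≤ Cw * (1 + 2 * s) :=
      mul_le_mul_of_nonneg_left (by linarith) (by linarith)
    have h2 : 1 * 1 ≤ Cw * s := mul_le_mul hCw hs1 (by norm_num) (by linarith)
    have h3 : Cw * 1 ≤ Cw * s := mul_le_mul_of_nonneg_left hs1 (by linarith)
    have h4 : Cw * (1 + 2 * s) = Cw * 1 + 2 * (Cw * s) := by ring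
    have h5 : 4 * Cw * s = 4 * (Cw * s) := by ring
    rw [h4] at h1
    rw [h5]; linarith
  have heo1 : eo ≤ A * r ^ 3 := by
    have h1 : eo ≤ 10 * (4 * Cw * s) * ((2 * C + 1) * r ^ 4) := by
      rw [heo]
      apply mul_le_mul _ hke (by linarith) (by positivity)
      linarith
    have h2 : 10 * (4 * Cw * s) * ((2 * C + 1) * r ^ 4) = A * (r * s) * r ^ 3 := by
      rw [hA]; ring
    rw [h2, hrs, mul_one] at h1
    exact h1
  have hr3 : r ^ 3 ≤ r := by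
    calc r ^ 3 = r * r ^ 2 := by ring
      _ ≤ r * 1 := mul_le_mul_of_nonneg_left hr2 hr0.le
      _ = r := by ring
  have heo2 : eo ≤ A * r := heo1.trans (mul_le_mul_of_nonneg_left hr3 (by linarith))
  have hKeo : (K : ℝ) * (4 * eo) ≤ 4 * A * r := by
    have h1 : (K : ℝ) * (4 * eo) ≤ K * (4 * (A * r ^ 3)) :=
      mul_le_mul_of_nonneg_left (by linarith) hKpos.le
    have h2 : (K : ℝ) * (4 * (A * r ^ 3)) = 4 * A * r * ((K : ℝ) * r ^ 2) := by ring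
    rw [h2, hKr2, mul_one] at h1
    exact h1
  set k3 : ℝ := C * (K * (4 * eo) + r ^ 4) with hk3
  have hk30 : 0 ≤ k3 := by positivity
  have hk31 : k3 ≤ C * (4 * A + 1) * r := by
    rw [hk3]
    have : (K : ℝ) * (4 * eo) + r ^ 4 ≤ (4 * A + 1) * r := by linarith
    calc C * (K * (4 * eo) + r ^ 4) ≤ C * ((4 * A + 1) * r) :=
          mul_le_mul_of_nonneg_left this (by linarith)
      _ = _ := by ring
  have hsum : k3 + r + 2 * eo ≤ W * r := by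
    have h1 : W * r = C * (4 * A + 1) * r + 2 * (A * r) + 2 * C * r + 2 * r := by
      rw [hW]; ring
    have h2 : 0 ≤ 2 * C * r := by positivity
    rw [h1]; linarith
  have h4eo : 4 * eo ≤ W * r := by
    have h1 : W * r = C * (4 * A + 1) * r + 2 * (A * r) + 2 * C * r + 2 * r := by
      rw [hW]; ring
    have h2 : 0 ≤ 2 * C * r := by positivity
    have h3 : 4 * (A * r) ≤ C * (4 * A + 1) * r := by
      have h5 : 1 * ((4 * A + 1) * r) ≤ C * ((4 * A + 1) * r) :=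
        mul_le_mul_of_nonneg_right hC (by positivity)
      have h7 : C * (4 * A + 1) * r = C * ((4 * A + 1) * r) := by ring
      have h8 : 1 * ((4 * A + 1) * r) = 4 * (A * r) + r := by ring
      rw [h7]; linarith
    have h6 : 0 < A * r := by positivity
    rw [h1]; linarith
  have hk14 : k1 ≤ W * r := by
    refine le_trans ?_ hCr
    rw [hk1d]
    exact mul_le_mul_of_nonneg_left hr4 (by linarith)
  refine ⟨r ^ 6, k1, e, eo, 4 * eo, k3, r, by positivity, by linarith, he, ?_, ?_, hk10,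
    hk14.trans hWr1, heo, heo0, rfl, by linarith, ?_, hk30, by linarith, hr0, by linarith, ?_⟩
  · rw [he]; linarith
  · rw [hK2]; exact hk1.symm
  · rw [hK2]
  · have h1 : (B : ℝ) * (k3 + r + eo) ≤ B * (W * r) :=
      mul_le_mul_of_nonneg_left (by linarith) hB0
    have h2 : ((B : ℝ) + 1) * (W * r) = B * (W * r) + W * r := by ring
    linarith

lemma one_sub_exp_ge {v : ℝ} (h0 : 0 < v) (h1 : v ≤ 1) : v / 2 ≤ 1 - Real.exp (-v) := by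
  have h2 : v + 1 ≤ Real.exp v := Real.add_one_le_exp v
  rw [Real.exp_neg]
  have h3 : (Real.exp v)⁻¹ ≤ (v + 1)⁻¹ := inv_anti₀ (by linarith) h2
  have h4 : (v + 1)⁻¹ ≤ 1 - v / 2 := by
    rw [inv_eq_one_div, div_le_iff₀ (by linarith)]
    nlinarith
  linarith

lemma norm_F1_le (S : Par) (hS : S.Ok) {ε₁ : ℝ} (h : 0 < ε₁) (θ : ℤ → ℝ) (k : ℕ) (t : ℤ) :
    ‖(F1 S ε₁ θ k t : ℂ)‖ ≤ 16 := by
  rw [Complex.norm_real, Real.norm_eq_abs]
  have h1 : 0 ≤ y1 S ε₁ θ k t := by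
    unfold y1
    have h2 : 0 < S.rho := hS.hr0
    have h3 : 0 < S.x t := Par.x_pos t
    have h4 : 0 ≤ min (nd (θ (t + 2 ^ k) - θ t)) (nd (θ (t + 2 ^ k) + θ t)) :=
      le_min (nd_nonneg _) (nd_nonneg _)
    positivity
  unfold F1
  rw [abs_of_nonneg (le_min h1 (by norm_num))]
  exact min_le_right _ _

theorem pf_REL (hPI : T_PI) (hFIN : T_FIN) (hWLG : T_WLG) (hRMO : T_RMO) (hE1 : T_E1)
    (hPH1 : T_PH1) (hORA : T_ORA) (hORI : T_ORI) (hE2P : T_E2P) (hE2S : T_E2S)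
    (hPH2 : T_PH2) (hTTX : T_TTX) (hPSS : T_PSS) (hPSP : T_PSP) (hSIZ : T_SIZ) : T_REL := by
  intro B c X₁ hG
  have hB2 : 2 ≤ B := hG.2.1
  obtain ⟨c₂, K₀, hc2, hBK0, hF⟩ := hFIN B c X₁ hG
  obtain ⟨C, hC1, hP⟩ := hPI B c X₁ hG 16 (by norm_num)
  obtain ⟨Cw, hCw1, hW⟩ := hWLG
  obtain ⟨K, hK0, hBK, hK10, e1, k1, e, eo, e2, k3, r, he10, he11, he, he100, hk1, hk10, hk11,
    heo, heo0, he2, he21, hk3, hk30, hk31, hr0, hs1, hs2⟩ :=
    rel_choose C Cw c₂ B K₀ hC1 hCw1 hc2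
  have hK1 : 1 ≤ K := by omega
  have he20 : 0 < e2 := by rw [he2]; linarith
  have he0 : 0 < e := by rw [he]; linarith
  set ε₁ : ℝ := min 1 (c₂ / 5000) with hε1
  have hε10 : 0 < ε₁ := lt_min (by norm_num) (by positivity)
  have hε11 : ε₁ ≤ 1 := min_le_left _ _
  have hε12 : ε₁ ≤ c₂ / 5000 := min_le_right _ _
  set ε₀ : ℝ := min (min (e1 * ε₁ / 100) (e2 * ε₁ / 100)) (min (c₂ / 100) (ε₁ / 100)) with hε0
  have hε00 : 0 < ε₀ := by
    refine lt_min (lt_min ?_ ?_) (lt_min ?_ ?_) <;> positivity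
  have ha1 : ε₀ ≤ e1 * ε₁ / 100 := (min_le_left _ _).trans (min_le_left _ _)
  have ha2 : ε₀ ≤ e2 * ε₁ / 100 := (min_le_left _ _).trans (min_le_right _ _)
  have ha3 : ε₀ ≤ c₂ / 100 := (min_le_right _ _).trans (min_le_left _ _)
  have ha4 : ε₀ ≤ ε₁ / 100 := (min_le_right _ _).trans (min_le_right _ _)
  refine ⟨e, ε₀, K, he0, hε00, hK1, fun η hη => ?_⟩
  obtain ⟨Xa, hXa⟩ := hF K hK0
  obtain ⟨Xb, hXb⟩ := hP K hBK
  obtain ⟨Xc, hXc⟩ := hW K hK1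
  obtain ⟨Xd, hXd⟩ := hE1 K ε₁ e1 hK1 hε10 hε11 he10 he11
  obtain ⟨Xe, hXe⟩ := hPH1 K ε₁ η hK1 hε10 hε11 hη
  obtain ⟨Xf, hXf⟩ := hORA K e hK1 he0
  obtain ⟨Xg, hXg⟩ := hORI K ε₁ η e hK1 hε10 hε11 hη he0
  obtain ⟨Xh, hXh⟩ := hE2P K ε₁ e2 hK1 hε10 hε11 he20 he21
  obtain ⟨Xi, hXi⟩ := hE2S K ε₁ e2 hK1 hε10 hε11 he20 he21
  obtain ⟨Xj, hXj⟩ := hPH2 K hK1
  obtain ⟨Xk, hXk⟩ := hTTX K hK1
  obtain ⟨Xl, hXl⟩ := hPSS K c₂ hK1 hc2
  obtain ⟨Xm, hXm⟩ := hPSP K B c₂ hK1 (by omega) hBK hc2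
  obtain ⟨Xn, hXn⟩ := hSIZ
  obtain ⟨Xo, hXo⟩ := LL_large (1 / r)
  refine ⟨max (max (max (max Xa Xb) (max Xc Xd)) (max (max Xe Xf) (max Xg Xh)))
    (max (max (max Xi Xj) (max Xk Xl)) (max (max Xm Xn) Xo)), ?_⟩
  intro S θ φ hS hSK hX hR
  simp only [max_le_iff] at hX
  obtain ⟨⟨⟨⟨xa, xb⟩, xc, xd⟩, ⟨xe, xf⟩, xg, xh⟩, ⟨⟨xi, xj⟩, xk, xl⟩, ⟨xm, xn⟩, xo⟩ := hX
  obtain ⟨hL1, -, -, -, -, -, -, -, -, -, -, hN, -⟩ := hXn S hS xn
  have hLr : 1 / S.L ≤ r := by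
    have h1 : 1 / r ≤ S.L := hXo _ xo
    rw [div_le_iff₀ (by linarith)]
    rw [div_le_iff₀ hr0] at h1
    linarith
  have hL0 : 0 ≤ 1 / S.L := by
    have : 0 < S.L := by linarith
    positivity
  -- step 1
  have hz : ∀ k : ℕ, k ≤ S.J → ∃ z : ℂ,
      S.cnt (fun t => 1 / 4 < ‖(F1 S ε₁ θ k t : ℂ) - z‖) ≤ k1 * S.N := by
    intro k hk
    have hE := hXd S ε₀ η θ φ hS hSK xd hε00.le ha1 (he ▸ hR) k hk
    obtain ⟨z, -, hz⟩ := hXb S hS hSK xb e1 _ he10 he11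
      (fun t => norm_F1_le S hS hε10 θ k t) hE
    exact ⟨z, by rw [hk1]; exact hz⟩
  -- step 2
  have hR2 : Rel S (1 / 100) ε₀ η θ φ := (hRMO S e ε₀ (1 / 100) ε₀ η θ φ hS he100 le_rfl).1 hR
  obtain ⟨k, s, s', hkJ, hrk, hs3, hs7, hs7', hc1, hc1'⟩ :=
    hXe S ε₀ k1 θ φ hS hSK xe hε00.le (by linarith) hk10 hk11 hR2 hz
  set θ' : ℤ → ℝ := fun t => oo S ε₁ θ k t * θ t with hθ'
  set φ' : ℤ → ℝ := fun t => oo S ε₁ θ k t * φ t with hφ'
  -- step 3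
  have hH := hXf S ε₁ k1 s s' k θ hS hSK xf hε10 hε11 hk10 hkJ hs3 hs7 hs7' hc1 hc1'
  -- step 4
  have hO := hXg S ε₀ k1 s k θ φ hS hSK xg hε00.le ha4 hk10 hkJ hs3 hs7 hR hc1
  have hsum : ∑ p ∈ S.Q, 1 / (p : ℝ) ≤ Cw * (1 + Real.log K) := by
    have := hXc S.X xc
    rw [← hSK] at this ⊢
    exact this
  have hO2 : ORel S eo ε₀ θ' φ' := by
    refine (hRMO S _ ε₀ eo ε₀ η θ' φ' hS ?_ le_rfl).2 hO
    rw [heo]
    apply mul_le_mul_of_nonneg_right _ (by linarith)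
    linarith
  have hO3 : ORel S (e2 / 4) ε₀ θ' φ' := by
    have : e2 / 4 = eo := by rw [he2]; ring
    rw [this]; exact hO2
  -- step 5
  have hz2 : ∀ (j : ℕ) (T' : ℝ), j ≤ S.J → |T'| ≤ 200 * ε₁ / S.rho ^ 2 →
      ∃ z : ℂ, S.cnt (fun t => 1 / 4 < ‖F2 S ε₁ θ' j T' t - z‖) ≤ k3 * S.N := by
    intro j T' hj hT'
    have hE : Edg S e2 (F2 S ε₁ θ' j T') :=
      ⟨hXh S ε₀ T' θ' φ' hS hSK xh hε00.le ha2 hO3 hT' j hj,
        hXi S ε₀ T' θ' φ' hS hSK xi hε00.le ha2 hO3 hT' j hj⟩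
    obtain ⟨z, -, hz⟩ := hXb S hS hSK xb e2 _ he20 he21
      (fun t => (norm_Phi_le _).trans (by norm_num)) hE
    exact ⟨z, by rw [hk3]; exact hz⟩
  -- step 6
  have hv0 : 0 < 2 ^ k * S.h := by
    have := hS.hh
    positivity
  have hv1 : 2 ^ k * S.h ≤ 1 := by
    have h1 : (2 : ℝ) ^ k ≤ 2 ^ S.J := pow_le_pow_right₀ (by norm_num) hkJ.le
    have h2 : 2 ^ k * S.h ≤ 2 ^ S.J * S.h := mul_le_mul_of_nonneg_right h1 hS.hh.le
    have h3 := hS.hJ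
    have h4 := Real.log_two_lt_d9
    linarith
  have hr := hS.hr0
  have hT : |s * ε₁ / (S.rho * (1 - Real.exp (-(2 ^ k * S.h))))| ≤ 112 * ε₁ / S.rho ^ 2 := by
    have h1 := one_sub_exp_ge hv0 hv1
    have h2 : S.rho / 16 ≤ 1 - Real.exp (-(2 ^ k * S.h)) := by linarith
    have h3 : 0 < 1 - Real.exp (-(2 ^ k * S.h)) := by linarith
    rw [abs_of_nonneg (by positivity), div_le_div_iff₀ (by positivity) (by positivity)]
    have h4 : s * (ε₁ * S.rho ^ 2) ≤ 7 * (ε₁ * S.rho ^ 2) :=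
      mul_le_mul_of_nonneg_right hs7 (by positivity)
    have h5 : ε₁ * S.rho * (S.rho / 16) ≤ ε₁ * S.rho * (1 - Real.exp (-(2 ^ k * S.h))) :=
      mul_le_mul_of_nonneg_left h2 (by positivity)
    have h6 : s * ε₁ * S.rho ^ 2 = s * (ε₁ * S.rho ^ 2) := by ring
    have h7 : 112 * ε₁ * (S.rho * (1 - Real.exp (-(2 ^ k * S.h)))) =
        112 * (ε₁ * S.rho * (1 - Real.exp (-(2 ^ k * S.h)))) := by ring
    have h8 : ε₁ * S.rho * (S.rho / 16) = (ε₁ * S.rho ^ 2) / 16 := by ring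
    rw [h6, h7]
    rw [h8] at h5
    linarith
  obtain ⟨T, hT2, hH2⟩ := hXj S ε₁ (4 * k1 + e) k3 _ k θ' hS hSK xj hε10 hε11 (by linarith)
    hk31 hkJ hrk hT hH hz2
  -- step 7
  have hcnt := hXk S eo ε₀ ε₁ (k3 + 1 / S.L) T θ' φ' hS hSK xk hε00.le (by linarith) hH2 hO2
  -- step 8
  have hκ0 : 0 ≤ k3 + 1 / S.L + eo := by linarith
  have hps := hXl S eo ε₀ ε₁ (k3 + 1 / S.L + eo) T θ' φ' hS hSK xl hε00.le ha3 hε10 hε12 hε11
    hT2 hO2 hcnt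
  have hpp := hXm S eo ε₀ ε₁ (k3 + 1 / S.L + eo) T θ' φ' hS hSK xm hε00.le ha3 hε10 hε12 hε11
    hT2 hκ0 hO2 hcnt
  refine hXa S hS hSK xa (ff S φ' T) (fun t => norm_ee _) ?_ ?_
  · intro w hw1 hw2
    refine (hps w hw1 hw2).trans (mul_le_mul_of_nonneg_right ?_ hN.le)
    linarith
  · refine hpp.trans (mul_le_mul_of_nonneg_right ?_ hN.le)
    have hB0 : (0 : ℝ) ≤ B := Nat.cast_nonneg _
    have h1 : (B : ℝ) * (k3 + 1 / S.L + eo) ≤ B * (k3 + r + eo) :=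
      mul_le_mul_of_nonneg_left (by linarith) hB0
    linarith

end Pool.Agent.H62.N4D
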