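import Pool.Agent.H6.N4D.TC

/-!
# RFN: refinement
-/

set_option autoImplicit false

open Finset Pool.Agent.H6.N4D

namespace Pool.Agent.H62.N4D

lemma cos_shift_int (x : ℝ) (k : ℤ) :
    Real.cos (2 * Real.pi * (x + k)) = Real.cos (2 * Real.pi * x) := by
  have := Real.cos_add_int_mul_two_pi (2 * Real.pi * x) k
  rw [← this]; congr 1; ring

lemma cos_pos_of {x : ℝ} (h1 : -(1 / 4) < x) (h2 : x < 1 / 4) :
    0 < Real.cos (2 * Real.pi * x) := by
  have hp := Real.pi_pos
  apply Real.cos_pos_of_mem_Ioo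
  constructor
  · nlinarith
  · nlinarith

lemma cos_neg_of {x : ℝ} (h1 : 1 / 4 < x) (h2 : x < 3 / 4) :
    Real.cos (2 * Real.pi * x) < 0 := by
  have hp := Real.pi_pos
  apply Real.cos_neg_of_pi_div_two_lt_of_lt
  · nlinarith
  · nlinarith

lemma cos_neg_of' {x : ℝ} (h1 : -(3 / 4) < x) (h2 : x < -(1 / 4)) :
    Real.cos (2 * Real.pi * x) < 0 := by
  have := cos_shift_int x 1
  rw [← this]
  push_cast
  exact cos_neg_of (by linarith) (by linarith)

/-- the count on a block is below the whole count -/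
lemma er_block (N Lb m0 : ℕ) (α β α' β' : ℝ) (P : ℕ → Prop) [DecidablePred P]
    (hm : m0 + Lb ≤ N)
    (h : ∀ j ∈ Icc 1 Lb, P j → Real.cos (2 * Real.pi * (α * ((m0 + j : ℕ) : ℝ) + β)) *
      Real.cos (2 * Real.pi * (α' * ((m0 + j : ℕ) : ℝ) + β')) ≤ 0) :
    ((Icc 1 Lb).filter P).card ≤ er N α β α' β' := by
  unfold er
  apply card_le_card_of_injOn (fun j => m0 + j)
  · intro j hj
    rw [mem_coe, mem_filter] at hj
    rw [mem_coe, mem_filter, mem_Icc]
    have h1 := mem_Icc.1 hj.1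
    have h2 : 1 ≤ m0 + j := by omega
    have h3 : m0 + j ≤ N := by omega
    exact ⟨⟨h2, h3⟩, h j hj.1 hj.2⟩
  · intro a _ b _ hab
    simpa using hab

/-- the constancy of the nearest integer -/
lemma round_const (γ b : ℝ) (M : ℕ) (hγ : |γ| ≤ 1 / 4)
    (h : ∀ m : ℕ, m ≤ M → nd (γ * m + b) ≤ 1 / 16) :
    ∀ m : ℕ, m ≤ M → round (γ * m + b) = round b := by
  intro m
  induction m with
  | zero => intro _; simp
  | succ m ih =>
    intro hm
    rw [← ih (by omega)]
    have h1 := h (m + 1) hm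
    have h2 := h m (by omega)
    unfold nd at h1 h2
    rw [abs_le] at h1 h2 hγ
    set r1 := round (γ * ((m + 1 : ℕ) : ℝ) + b)
    set r2 := round (γ * (m : ℝ) + b)
    push_cast at h1
    have h3 : ((r1 - r2 : ℤ) : ℝ) < 1 := by push_cast; linarith [h1.1, h2.2, hγ.2]
    have h4 : (-1 : ℝ) < ((r1 - r2 : ℤ) : ℝ) := by push_cast; linarith [h1.2, h2.1, hγ.1]
    have h5 : r1 - r2 < 1 := by exact_mod_cast h3
    have h6 : -1 < r1 - r2 := by exact_mod_cast h4
    omega

theorem pf_RFN (hEQD : T_EQD) : T_RFN := by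
  intro ε₀ h0 h1
  have hw0 : 0 < ε₀ / 16 := by positivity
  obtain ⟨Q, hQ⟩ := hEQD (ε₀ / 16) hw0 (by linarith)
  refine ⟨Q, fun η hη => ?_⟩
  obtain ⟨N1, hN1⟩ := hQ η hη
  set w := ε₀ / 16 with hw
  set z := ε₀ / 1600 with hz
  have hz0 : 0 < z := by positivity
  refine ⟨w * z / 4, ⌈2 * ((N1 : ℝ) + 100) / z⌉₊, by positivity, ?_⟩
  intro N hN α' β β' γ hgen hγ her
  have hNr : 2 * ((N1 : ℝ) + 100) / z ≤ N := (Nat.le_ceil _).trans (by exact_mod_cast hN)
  rw [div_le_iff₀ hz0] at hNr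
  have hN1' : (0 : ℝ) ≤ N1 := Nat.cast_nonneg _
  have hzN : 200 ≤ z * N := by nlinarith
  have hz1 : z ≤ 1 / 1000 := by rw [hz]; linarith
  have hNpos : (0 : ℝ) < N := by
    by_contra hc
    push Not at hc
    nlinarith
  have hN200 : (200 : ℝ) ≤ N := by nlinarith
  set Lb := ⌊z * (N : ℝ)⌋₊ with hLb
  have hL1 : (Lb : ℝ) ≤ z * N := Nat.floor_le (by positivity)
  have hL2 : z * N < Lb + 1 := Nat.lt_floor_add_one _
  have hL3 : z * N / 2 ≤ Lb := by linarith
  have hL4 : N1 ≤ Lb := by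
    have : (N1 : ℝ) ≤ Lb := by nlinarith
    exact_mod_cast this
  have hL5 : (Lb : ℝ) ≤ N / 2 := by nlinarith
  have hL6 : Lb ≤ N := by
    have : (Lb : ℝ) ≤ N := by linarith
    exact_mod_cast this
  have hγL : |γ| * Lb ≤ ε₀ / 100 := by
    have h2 : |γ| * Lb ≤ 16 / N * (z * N) := by
      apply mul_le_mul hγ hL1 (Nat.cast_nonneg _) (by positivity)
    have h3 : 16 / (N : ℝ) * (z * N) = 16 * z := by field_simp
    rw [h3, hz] at h2
    linarith
  -- the claim
  have claim : ∀ m0 : ℕ, m0 ≤ N - Lb → nd (γ * m0 + (β - β')) ≤ ε₀ / 4 := by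
    intro m0 hm0
    by_contra hc
    push Not at hc
    have hm : m0 + Lb ≤ N := by omega
    set u0 := γ * m0 + (β - β') with hu0
    have hs : |sr u0| = nd u0 := abs_sr u0
    have hs2 : |sr u0| ≤ 1 / 2 := by rw [hs]; exact nd_le_half _
    have hs3 : ε₀ / 4 < |sr u0| := by rw [hs]; exact hc
    obtain ⟨y0, hy0⟩ : ∃ y0 : ℝ, ∀ Y d : ℝ, y0 ≤ Y → Y ≤ y0 + 2 * w → |d| ≤ ε₀ / 100 →
        Real.cos (2 * Real.pi * (Y + sr u0 + d)) * Real.cos (2 * Real.pi * Y) ≤ 0 := by
      rcases le_total 0 (sr u0) with hp | hp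
      · rw [abs_of_nonneg hp] at hs2 hs3
        refine ⟨1 / 4 - 3 * w, fun Y d hY1 hY2 hd => ?_⟩
        rw [abs_le] at hd
        have e1 := cos_pos_of (x := Y) (by linarith) (by linarith)
        have e2 := cos_neg_of (x := Y + sr u0 + d) (by linarith [hd.1]) (by linarith [hd.2])
        exact (mul_neg_of_neg_of_pos e2 e1).le
      · rw [abs_of_nonpos hp] at hs2 hs3
        refine ⟨-(1 / 4) + w, fun Y d hY1 hY2 hd => ?_⟩
        rw [abs_le] at hd
        have e1 := cos_pos_of (x := Y) (by linarith) (by linarith)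
        have e2 := cos_neg_of' (x := Y + sr u0 + d) (by linarith [hd.1]) (by linarith [hd.2])
        exact (mul_neg_of_neg_of_pos e2 e1).le
    have hE := hN1 Lb hL4 α' (α' * m0 + β') y0 hgen
    classical
    have hB := er_block N Lb m0 (α' + γ) β α' β'
      (fun j : ℕ => ∃ k : ℤ, y0 ≤ α' * j + (α' * m0 + β') + k ∧
        α' * j + (α' * m0 + β') + k ≤ y0 + 2 * w) hm (by
        rintro j hj ⟨k, hk1, hk2⟩
        have hj2 := (mem_Icc.1 hj).2
        have hjr : (j : ℝ) ≤ Lb := by exact_mod_cast hj2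
        have hd : |γ * j| ≤ ε₀ / 100 := by
          rw [abs_mul, Nat.abs_cast]
          exact (mul_le_mul_of_nonneg_left hjr (abs_nonneg _)).trans hγL
        have := hy0 _ (γ * j) hk1 hk2 hd
        set Y := α' * j + (α' * m0 + β') + k with hY
        have e1 : (α' + γ) * ((m0 + j : ℕ) : ℝ) + β =
            (Y + sr u0 + γ * j) + ((round u0 - k : ℤ) : ℝ) := by
          unfold sr
          rw [hY, hu0]; push_cast; ring
        have e2 : α' * ((m0 + j : ℕ) : ℝ) + β' = Y + ((-k : ℤ) : ℝ) := by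
          rw [hY]; push_cast; ring
        rw [e1, e2, cos_shift_int, cos_shift_int]
        exact this)
    have hB' : ((((Icc 1 Lb).filter (fun j : ℕ => ∃ k : ℤ, y0 ≤ α' * j + (α' * m0 + β') + k ∧
        α' * j + (α' * m0 + β') + k ≤ y0 + 2 * w)).card : ℕ) : ℝ) ≤
        (er N (α' + γ) β α' β' : ℝ) := by exact_mod_cast hB
    have hE' : w * Lb ≤ w * z / 4 * N := by
      refine hE.trans (le_trans ?_ her)
      convert hB' using 3
    have : w * (z * N / 2) ≤ w * Lb := mul_le_mul_of_nonneg_left hL3 hw0.le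
    have h3 : 0 < w * (z * N) := by positivity
    nlinarith
  have hγ4 : |γ| ≤ 1 / 4 := by
    refine hγ.trans ?_
    rw [div_le_iff₀ hNpos]; linarith
  have hcl : ∀ m : ℕ, m ≤ N - Lb → nd (γ * m + (β - β')) ≤ 1 / 16 := fun m hm =>
    (claim m hm).trans (by linarith)
  have hr := round_const γ (β - β') (N - Lb) hγ4 hcl (N - Lb) le_rfl
  have hA := claim (N - Lb) le_rfl
  have hB := claim 0 (Nat.zero_le _)
  unfold nd at hA hB
  simp only [Nat.cast_zero, mul_zero, zero_add] at hB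
  rw [hr] at hA
  rw [Nat.cast_sub hL6] at hA
  constructor
  · rw [le_div_iff₀ hNpos]
    have h2 : |γ * ((N : ℝ) - Lb)| ≤ ε₀ / 2 := by
      have h3 : γ * ((N : ℝ) - Lb) = (γ * ((N : ℝ) - Lb) + (β - β') - (round (β - β') : ℝ)) -
          ((β - β') - (round (β - β') : ℝ)) := by ring
      rw [h3]
      refine (abs_sub _ _).trans ?_
      linarith
    rw [abs_mul, abs_of_nonneg (by linarith : (0 : ℝ) ≤ (N : ℝ) - Lb)] at h2
    nlinarith [abs_nonneg γ]
  · refine le_trans (le_of_eq ?_) (hB.trans (by linarith))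
    rfl

end Pool.Agent.H62.N4D
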